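import Mathlib

/-!
# MP_4aa424_co: First-Fit on chordal graphs, the bound `c · ω · log n` is attained uniformly in `ω`

The lexicographic blow-up of the binomial tree by cliques of size `⌊k/2⌋`, together with a
disjoint clique of size `k`.
-/

namespace Pool.Agent.Results.MP_4aa424_co.FirstFitChordal

open Finset

/-- Every cycle of length at least four has a chord: for every injective cyclic sequence
`f 0, f 1, …, f (n-1)` with `n ≥ 4` and consecutive terms adjacent there are two non-consecutive
positions whose vertices are adjacent. -/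
def Chordal {V : Type*} (G : SimpleGraph V) : Prop :=
  ∀ (n : ℕ) (f : ZMod n → V), 4 ≤ n → Function.Injective f → (∀ i, G.Adj (f i) (f (i + 1))) →
    ∃ i j : ZMod n, i ≠ j ∧ j ≠ i + 1 ∧ i ≠ j + 1 ∧ G.Adj (f i) (f j)

/-- `c` is the First-Fit colouring of `G` for the ordering of the vertices by increasing `ρ`:
every vertex gets the least positive integer not used on an earlier neighbour. -/
def IsFirstFit {V : Type*} (G : SimpleGraph V) (ρ : V → ℕ) (c : V → ℕ) : Prop :=
  Function.Injective ρ ∧
    ∀ v, IsLeast {m : ℕ | 1 ≤ m ∧ ∀ w, G.Adj v w → ρ w < ρ v → c w ≠ m} (c v)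

/-- The First-Fit chromatic number: the largest number of colours used by First-Fit, over all
orderings of the vertices. -/
noncomputable def chiFF {V : Type*} [Fintype V] (G : SimpleGraph V) : ℕ :=
  sSup {t : ℕ | ∃ ρ c : V → ℕ, IsFirstFit G ρ c ∧ t = (univ.image c).card}

/-! ### General facts -/

theorem card_le_chiFF {V : Type*} [Fintype V] (G : SimpleGraph V) (ρ c : V → ℕ)
    (h : IsFirstFit G ρ c) : (univ.image c).card ≤ chiFF G := by
  refine le_csSup ⟨Fintype.card V, ?_⟩ ⟨ρ, c, h, rfl⟩
  rintro t ⟨ρ', c', -, rfl⟩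
  exact card_image_le

/-- A wall is a First-Fit colouring for a suitable ordering. -/
theorem exists_order {V : Type*} [Fintype V] (G : SimpleGraph V) (c : V → ℕ)
    (h1 : ∀ v, 1 ≤ c v) (hp : ∀ v w, G.Adj v w → c v ≠ c w)
    (hw : ∀ v m, 1 ≤ m → m < c v → ∃ w, G.Adj v w ∧ c w = m) :
    ∃ ρ : V → ℕ, IsFirstFit G ρ c := by
  classical
  set n := Fintype.card V with hn
  let e : V ≃ Fin n := Fintype.equivFin V
  refine ⟨fun v => c v * n + e v, ?_, ?_⟩
  · intro v w hvw
    simp only at hvw
    have hv := (e v).isLt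
    have hw' := (e w).isLt
    have h2 : (e v : ℕ) = e w := by
      have := congrArg (· % n) hvw
      simp only [Nat.mul_add_mod', Nat.mod_eq_of_lt hv, Nat.mod_eq_of_lt hw'] at this
      exact this
    exact e.injective (Fin.ext h2)
  · intro v
    constructor
    · refine ⟨h1 v, fun w hvw _ => ?_⟩
      exact (hp v w hvw).symm
    · rintro m ⟨hm1, hm⟩
      by_contra hlt
      push Not at hlt
      obtain ⟨w, hvw, hcw⟩ := hw v m hm1 hlt
      refine hm w hvw ?_ hcw
      simp only
      have hw' := (e w).isLt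
      have : (c w + 1) * n ≤ c v * n := Nat.mul_le_mul_right _ (by omega)
      nlinarith

/-- If the neighbours of each vertex of no larger depth, together with the vertex, form a clique
then the graph is chordal. -/
theorem chordal_of_depth {V : Type*} (G : SimpleGraph V) (d : V → ℕ)
    (h : ∀ x y z, G.Adj x y → G.Adj x z → d y ≤ d x → d z ≤ d x → y ≠ z → G.Adj y z) :
    Chordal G := by
  intro n f hn hf hadj
  have : NeZero n := ⟨by omega⟩
  obtain ⟨i, -, hi⟩ := Finset.exists_max_image (univ : Finset (ZMod n)) (fun i => d (f i))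
    ⟨0, mem_univ _⟩
  have h1 : G.Adj (f i) (f (i + 1)) := hadj i
  have h2 : G.Adj (f i) (f (i - 1)) := by
    have := hadj (i - 1)
    rw [sub_add_cancel] at this
    exact this.symm
  have n1 : (1 : ZMod n) ≠ 0 := by
    have : ((1 : ℕ) : ZMod n) ≠ 0 := by
      rw [Ne, ZMod.natCast_eq_zero_iff]
      intro hd
      exact absurd (Nat.le_of_dvd (by norm_num) hd) (by omega)
    simpa using this
  have n2 : (2 : ZMod n) ≠ 0 := by
    have : ((2 : ℕ) : ZMod n) ≠ 0 := by
      rw [Ne, ZMod.natCast_eq_zero_iff]
      intro hd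
      exact absurd (Nat.le_of_dvd (by norm_num) hd) (by omega)
    simpa using this
  have n3 : (3 : ZMod n) ≠ 0 := by
    have : ((3 : ℕ) : ZMod n) ≠ 0 := by
      rw [Ne, ZMod.natCast_eq_zero_iff]
      intro hd
      exact absurd (Nat.le_of_dvd (by norm_num) hd) (by omega)
    simpa using this
  have hne : i + 1 ≠ i - 1 := by
    intro he
    apply n2
    linear_combination he
  refine ⟨i + 1, i - 1, hne, ?_, ?_, ?_⟩
  · intro he
    apply n3
    linear_combination -he
  · intro he
    apply n1
    linear_combination he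
  · exact h _ _ _ h1 h2 (hi _ (mem_univ _)) (hi _ (mem_univ _)) (fun he => hne (hf he))


/-! ### The construction -/

section Construction

variable (m s k : ℕ)

/-- `S` is the parent of `T` in the binomial tree on the subsets of `{0,…,m-1}`: `T` arises from
`S` by adding a new smallest element. -/
def Par {m : ℕ} (S T : Finset (Fin m)) : Prop := ∃ i, (∀ j ∈ S, i < j) ∧ T = insert i S

theorem Par.unique {m : ℕ} {S S' T : Finset (Fin m)} (h : Par S T) (h' : Par S' T) : S = S' := by
  obtain ⟨i, hi, rfl⟩ := h
  obtain ⟨i', hi', he⟩ := h'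
  have hii : i = i' := by
    have h1 : i ∈ insert i' S' := he ▸ mem_insert_self i S
    have h2 : i' ∈ insert i S := he ▸ mem_insert_self i' S'
    rcases mem_insert.mp h1 with h | h
    · exact h
    · rcases mem_insert.mp h2 with h3 | h3
      · exact h3.symm
      · exact absurd (hi _ h3) (not_lt.mpr (hi' _ h).le)
  subst hii
  have e1 : (insert i S).erase i = S := erase_insert (fun h => lt_irrefl _ (hi i h))
  have e2 : (insert i S').erase i = S' := erase_insert (fun h => lt_irrefl _ (hi' i h))
  rw [← e1, he, e2]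

theorem Par.card {m : ℕ} {S T : Finset (Fin m)} (h : Par S T) : T.card = S.card + 1 := by
  obtain ⟨i, hi, rfl⟩ := h
  exact card_insert_of_notMem (fun h => lt_irrefl _ (hi i h))

theorem Par.ne {m : ℕ} {S T : Finset (Fin m)} (h : Par S T) : S ≠ T := by
  intro he
  have := h.card
  rw [he] at this
  omega

/-- The graph: blow-up of the binomial tree by cliques of size `s`, plus a disjoint `K_k`. -/
def gr : SimpleGraph ((Finset (Fin m) × Fin s) ⊕ Fin k) where
  Adj x y := match x, y with
    | .inl p, .inl q => (p.1 = q.1 ∧ p.2 ≠ q.2) ∨ Par p.1 q.1 ∨ Par q.1 p.1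
    | .inr a, .inr b => a ≠ b
    | _, _ => False
  symm := ⟨by
    rintro (p | a) (q | b) h
    · rcases h with h | h | h
      · exact Or.inl ⟨h.1.symm, h.2.symm⟩
      · exact Or.inr (Or.inr h)
      · exact Or.inr (Or.inl h)
    · exact h
    · exact h
    · exact Ne.symm h⟩
  loopless := ⟨by
    rintro (p | a) h
    · rcases h with h | h | h
      · exact h.2 rfl
      · exact h.ne rfl
      · exact h.ne rfl
    · exact h rfl⟩

theorem adj_ll (p q : Finset (Fin m) × Fin s) : (gr m s k).Adj (.inl p) (.inl q) ↔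
    (p.1 = q.1 ∧ p.2 ≠ q.2) ∨ Par p.1 q.1 ∨ Par q.1 p.1 := Iff.rfl

theorem adj_rr (a b : Fin k) : (gr m s k).Adj (.inr a) (.inr b) ↔ a ≠ b := Iff.rfl

theorem adj_lr (p : Finset (Fin m) × Fin s) (b : Fin k) : ¬ (gr m s k).Adj (.inl p) (.inr b) :=
  fun h => h

theorem adj_rl (p : Finset (Fin m) × Fin s) (b : Fin k) : ¬ (gr m s k).Adj (.inr b) (.inl p) :=
  fun h => h

/-- depth of a vertex -/
def dep : (Finset (Fin m) × Fin s) ⊕ Fin k → ℕ
  | .inl p => p.1.card
  | .inr _ => 0

/-- Lower neighbours of `inl p`. -/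
theorem low {m s k : ℕ} {p : Finset (Fin m) × Fin s} {y : (Finset (Fin m) × Fin s) ⊕ Fin k}
    (h : (gr m s k).Adj (.inl p) y) (hd : dep m s k y ≤ dep m s k (.inl p)) :
    ∃ q, y = .inl q ∧ ((p.1 = q.1 ∧ p.2 ≠ q.2) ∨ Par q.1 p.1) := by
  rcases y with q | b
  · refine ⟨q, rfl, ?_⟩
    rcases (adj_ll m s k p q).mp h with h | h | h
    · exact Or.inl h
    · have := h.card
      simp only [dep] at hd
      omega
    · exact Or.inr h
  · exact absurd h (adj_lr m s k p b)

theorem low_clique {m s k : ℕ} (x y z : (Finset (Fin m) × Fin s) ⊕ Fin k)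
    (hy : (gr m s k).Adj x y) (hz : (gr m s k).Adj x z) (hdy : dep m s k y ≤ dep m s k x)
    (hdz : dep m s k z ≤ dep m s k x) (hne : y ≠ z) : (gr m s k).Adj y z := by
  rcases x with p | a
  · obtain ⟨q, rfl, hq⟩ := low hy hdy
    obtain ⟨r, rfl, hr⟩ := low hz hdz
    rw [adj_ll]
    rcases hq with hq | hq
    · rcases hr with hr | hr
      · refine Or.inl ⟨hq.1.symm.trans hr.1, fun h => hne ?_⟩
        congr 1
        exact Prod.ext (hq.1.symm.trans hr.1) h
      · rw [← hq.1]
        exact Or.inr (Or.inr hr)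
    · rcases hr with hr | hr
      · rw [← hr.1]
        exact Or.inr (Or.inl hq)
      · have he := hq.unique hr
        refine Or.inl ⟨he, fun h => hne ?_⟩
        congr 1
        exact Prod.ext he h
  · rcases y with q | b
    · exact absurd hy (adj_rl m s k q a)
    · rcases z with r | c
      · exact absurd hz (adj_rl m s k r a)
      · rw [adj_rr]
        intro h
        exact hne (by rw [h])

theorem chordal_gr : Chordal (gr m s k) := chordal_of_depth _ (dep m s k) low_clique

theorem cliqueNum_gr (hs : 2 * s ≤ k) (hs1 : 1 ≤ s) : (gr m s k).cliqueNum = k := by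
  classical
  apply le_antisymm
  · obtain ⟨t, ht⟩ := (gr m s k).exists_isNClique_cliqueNum
    rw [← ht.card_eq]
    rcases t.eq_empty_or_nonempty with rfl | hne
    · simp
    obtain ⟨x, hx, hmax⟩ := exists_max_image t (dep m s k) hne
    rcases x with p | a
    · by_cases hP : ∃ S, Par S p.1
      · obtain ⟨S, hS⟩ := hP
        have hsub : t ⊆ (univ.image (fun a : Fin s => (Sum.inl (p.1, a) :
            (Finset (Fin m) × Fin s) ⊕ Fin k))) ∪
            (univ.image (fun a : Fin s => (Sum.inl (S, a) : (Finset (Fin m) × Fin s) ⊕ Fin k))) := by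
          intro y hy
          rw [mem_union]
          by_cases hyx : y = Sum.inl p
          · left
            rw [mem_image]
            exact ⟨p.2, mem_univ _, by rw [hyx]⟩
          · obtain ⟨q, rfl, hq⟩ := low (ht.isClique hx hy (Ne.symm hyx)) (hmax y hy)
            rcases hq with hq | hq
            · left
              rw [mem_image]
              exact ⟨q.2, mem_univ _, by rw [hq.1]⟩
            · right
              rw [mem_image]
              exact ⟨q.2, mem_univ _, by rw [hS.unique hq]⟩
        refine (card_le_card hsub).trans ((card_union_le _ _).trans ?_)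
        have h1 : ∀ S' : Finset (Fin m), (univ.image (fun a : Fin s => (Sum.inl (S', a) :
            (Finset (Fin m) × Fin s) ⊕ Fin k))).card ≤ s := by
          intro S'
          refine card_image_le.trans ?_
          simp
        have := h1 p.1
        have := h1 S
        omega
      · have hsub : t ⊆ (univ.image (fun a : Fin s => (Sum.inl (p.1, a) :
            (Finset (Fin m) × Fin s) ⊕ Fin k))) := by
          intro y hy
          by_cases hyx : y = Sum.inl p
          · rw [mem_image]
            exact ⟨p.2, mem_univ _, by rw [hyx]⟩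
          · obtain ⟨q, rfl, hq⟩ := low (ht.isClique hx hy (Ne.symm hyx)) (hmax y hy)
            rcases hq with hq | hq
            · rw [mem_image]
              exact ⟨q.2, mem_univ _, by rw [hq.1]⟩
            · exact absurd ⟨_, hq⟩ hP
        refine (card_le_card hsub).trans (card_image_le.trans ?_)
        simp
        omega
    · have hsub : t ⊆ (univ.image (fun b : Fin k => (Sum.inr b :
            (Finset (Fin m) × Fin s) ⊕ Fin k))) := by
        intro y hy
        by_cases hyx : y = Sum.inr a
        · rw [hyx]; exact mem_image_of_mem _ (mem_univ _)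
        · have := ht.isClique hx hy (Ne.symm hyx)
          rcases y with q | b
          · exact absurd this (adj_rl m s k q a)
          · exact mem_image_of_mem _ (mem_univ _)
      refine (card_le_card hsub).trans (card_image_le.trans ?_)
      simp
  · have hc : (gr m s k).IsClique (univ.image (fun b : Fin k => (Sum.inr b :
            (Finset (Fin m) × Fin s) ⊕ Fin k)) : Finset _) := by
      intro x hx y hy hxy
      simp only [coe_image, coe_univ, Set.image_univ, Set.mem_range] at hx hy
      obtain ⟨a, rfl⟩ := hx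
      obtain ⟨b, rfl⟩ := hy
      rw [adj_rr]
      intro h
      exact hxy (by rw [h])
    have := hc.card_le_cliqueNum
    rw [card_image_of_injective _ Sum.inr_injective, card_univ, Fintype.card_fin] at this
    exact this

/-- The level of `S`: its least element, or `m` if `S` is empty. -/
noncomputable def lev {m : ℕ} (S : Finset (Fin m)) : ℕ :=
  if h : S.Nonempty then (S.min' h : ℕ) else m

theorem lev_le {m : ℕ} (S : Finset (Fin m)) : lev S ≤ m := by
  unfold lev
  split_ifs with h
  · exact (S.min' h).isLt.le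
  · exact le_rfl

theorem lt_of_lt_lev {m : ℕ} {S : Finset (Fin m)} {i : Fin m} (h : (i : ℕ) < lev S) :
    ∀ j ∈ S, i < j := by
  intro j hj
  have hne : S.Nonempty := ⟨j, hj⟩
  unfold lev at h
  rw [dif_pos hne] at h
  exact lt_of_lt_of_le (Fin.lt_def.mpr h) (S.min'_le j hj)

theorem lev_insert {m : ℕ} {S : Finset (Fin m)} {i : Fin m} (h : ∀ j ∈ S, i < j) :
    lev (insert i S) = i := by
  unfold lev
  rw [dif_pos (insert_nonempty i S)]
  congr 1
  refine le_antisymm (min'_le _ _ (mem_insert_self i S)) ?_
  refine le_min' _ _ _ (fun j hj => ?_)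
  rcases mem_insert.mp hj with rfl | hj
  · exact le_rfl
  · exact (h j hj).le

theorem lt_lev {m : ℕ} {S : Finset (Fin m)} {i : Fin m} (h : ∀ j ∈ S, i < j) :
    (i : ℕ) < lev S := by
  unfold lev
  split_ifs with hne
  · exact Fin.lt_def.mp (h _ (S.min'_mem hne))
  · exact i.isLt

theorem Par.lev_lt {m : ℕ} {S T : Finset (Fin m)} (h : Par S T) : lev T < lev S := by
  obtain ⟨i, hi, rfl⟩ := h
  rw [lev_insert hi]
  exact lt_lev hi

/-- The First-Fit colouring. -/
noncomputable def col : (Finset (Fin m) × Fin s) ⊕ Fin k → ℕ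
  | .inl p => lev p.1 * s + p.2 + 1
  | .inr a => a + 1

theorem col_pos (v : (Finset (Fin m) × Fin s) ⊕ Fin k) : 1 ≤ col m s k v := by
  rcases v with p | a <;> simp only [col] <;> omega

theorem col_par {m s k : ℕ} {p q : Finset (Fin m) × Fin s} (h : Par p.1 q.1) :
    col m s k (.inl q) < col m s k (.inl p) := by
  have h1 := h.lev_lt
  simp only [col]
  have h2 := q.2.isLt
  have h3 : (lev q.1 + 1) * s ≤ lev p.1 * s := Nat.mul_le_mul_right _ h1
  nlinarith

theorem col_proper (v w : (Finset (Fin m) × Fin s) ⊕ Fin k) (h : (gr m s k).Adj v w) :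
    col m s k v ≠ col m s k w := by
  rcases v with p | a
  · rcases w with q | b
    · rcases (adj_ll m s k p q).mp h with h | h | h
      · simp only [col]
        rw [h.1]
        intro he
        apply h.2
        apply Fin.ext
        omega
      · exact (col_par h).ne'
      · exact (col_par h).ne
    · exact absurd h (adj_lr m s k p b)
  · rcases w with q | b
    · exact absurd h (adj_rl m s k q a)
    · simp only [col]
      rw [adj_rr] at h
      intro he
      apply h
      apply Fin.ext
      omega

theorem col_wall (v : (Finset (Fin m) × Fin s) ⊕ Fin k) (l : ℕ) (h1 : 1 ≤ l)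
    (hl : l < col m s k v) : ∃ w, (gr m s k).Adj v w ∧ col m s k w = l := by
  rcases v with p | a
  · simp only [col] at hl
    have hs : 0 < s := lt_of_le_of_lt (Nat.zero_le _) p.2.isLt
    obtain ⟨q, r, hr, hqr⟩ : ∃ q r, r < s ∧ l - 1 = q * s + r :=
      ⟨(l - 1) / s, (l - 1) % s, Nat.mod_lt _ hs, by rw [mul_comm]; exact (Nat.div_add_mod _ _).symm⟩
    have hp := p.2.isLt
    have hq : q ≤ lev p.1 := by
      by_contra hcon
      push Not at hcon
      have : (lev p.1 + 1) * s ≤ q * s := Nat.mul_le_mul_right _ hcon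
      nlinarith [Nat.sub_add_cancel h1]
    rcases Nat.lt_or_ge q (lev p.1) with hlt | hge
    · have hqm : q < m := lt_of_lt_of_le hlt (lev_le _)
      have hi : ∀ j ∈ p.1, (⟨q, hqm⟩ : Fin m) < j := lt_of_lt_lev hlt
      refine ⟨.inl (insert ⟨q, hqm⟩ p.1, ⟨r, hr⟩), ?_, ?_⟩
      · rw [adj_ll]
        exact Or.inr (Or.inl ⟨_, hi, rfl⟩)
      · simp only [col]
        rw [lev_insert hi]
        simp only
        omega
    · have hqe : q = lev p.1 := le_antisymm hq hge
      refine ⟨.inl (p.1, ⟨r, hr⟩), ?_, ?_⟩
      · rw [adj_ll]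
        refine Or.inl ⟨rfl, fun he => ?_⟩
        have : (p.2 : ℕ) = r := by rw [he]
        rw [hqe] at hqr
        omega
      · simp only [col]
        rw [← hqe]
        omega
  · simp only [col] at hl
    have ha := a.isLt
    refine ⟨.inr ⟨l - 1, by omega⟩, ?_, ?_⟩
    · rw [adj_rr]
      intro he
      have : (a : ℕ) = l - 1 := by rw [he]
      omega
    · simp only [col]
      omega

theorem chiFF_gr (hs : 1 ≤ s) : (m + 1) * s ≤ chiFF (gr m s k) := by
  classical
  obtain ⟨ρ, hρ⟩ := exists_order (gr m s k) (col m s k) (col_pos m s k) (col_proper m s k)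
    (col_wall m s k)
  refine le_trans ?_ (card_le_chiFF _ ρ _ hρ)
  have hsub : Finset.Icc 1 ((m + 1) * s) ⊆ univ.image (col m s k) := by
    intro l hl
    rw [Finset.mem_Icc] at hl
    have hlast : col m s k (.inl (∅, ⟨s - 1, by omega⟩)) = (m + 1) * s := by
      simp only [col, lev, Finset.not_nonempty_empty, dite_false]
      have : (m + 1) * s = m * s + s := by ring
      rw [this]
      omega
    rcases Nat.lt_or_ge l ((m + 1) * s) with h | h
    · obtain ⟨w, -, hw⟩ := col_wall m s k (.inl (∅, ⟨s - 1, by omega⟩)) l hl.1 (by rw [hlast]; exact h)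
      rw [mem_image]
      exact ⟨w, mem_univ _, hw⟩
    · rw [mem_image]
      exact ⟨_, mem_univ _, hlast.trans (le_antisymm h hl.2)⟩
  have := card_le_card hsub
  rw [Nat.card_Icc] at this
  omega

end Construction

/-- For `k ≥ 2` the lower bound holds with the absolute constant `1/6`. -/
theorem lower (k : ℕ) (hk : 2 ≤ k) (N : ℕ) : ∃ (V : Type) (_ : Fintype V) (G : SimpleGraph V),
    Chordal G ∧ G.cliqueNum = k ∧ N ≤ Fintype.card V ∧
      (1 / 6 : ℝ) * G.cliqueNum * Real.log (Fintype.card V) ≤ chiFF G := by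
  classical
  set s := k / 2 with hs
  set m := N + k with hm
  refine ⟨(Finset (Fin m) × Fin s) ⊕ Fin k, inferInstance, gr m s k, chordal_gr m s k,
    cliqueNum_gr m s k (by omega) (by omega), ?_, ?_⟩
  · simp only [Fintype.card_sum, Fintype.card_prod, Fintype.card_finset, Fintype.card_fin]
    have h1 : m < 2 ^ m := Nat.lt_two_pow_self
    have h2 : 2 ^ m * 1 ≤ 2 ^ m * s := Nat.mul_le_mul_left _ (by omega)
    omega
  · rw [cliqueNum_gr m s k (by omega) (by omega)]
    have hchi := chiFF_gr m s k (by omega)
    have hchi' : ((m + 1) * s : ℝ) ≤ chiFF (gr m s k) := by exact_mod_cast hchi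
    refine le_trans ?_ hchi'
    have hcard : (Fintype.card ((Finset (Fin m) × Fin s) ⊕ Fin k) : ℝ) ≤ 2 ^ (2 * (m + 1)) := by
      have : Fintype.card ((Finset (Fin m) × Fin s) ⊕ Fin k) ≤ 2 ^ (2 * (m + 1)) := by
        simp only [Fintype.card_sum, Fintype.card_prod, Fintype.card_finset, Fintype.card_fin]
        have h1 : m < 2 ^ m := Nat.lt_two_pow_self
        have h2 : 2 ^ m * s ≤ 2 ^ m * 2 ^ m := Nat.mul_le_mul_left _ (by omega)
        have h3 : k ≤ 2 ^ m * 2 ^ m := by nlinarith
        have h4 : 2 ^ (2 * (m + 1)) = 4 * (2 ^ m * 2 ^ m) := by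
          rw [two_mul, pow_add, pow_succ]; ring
        omega
      exact_mod_cast this
    have hcpos : (0 : ℝ) < Fintype.card ((Finset (Fin m) × Fin s) ⊕ Fin k) := by
      have : 0 < Fintype.card ((Finset (Fin m) × Fin s) ⊕ Fin k) := by
        simp only [Fintype.card_sum, Fintype.card_fin]
        omega
      exact_mod_cast this
    have hlog : Real.log (Fintype.card ((Finset (Fin m) × Fin s) ⊕ Fin k)) ≤ 2 * (m + 1) := by
      have h1 := Real.log_le_log hcpos hcard
      rw [Real.log_pow] at h1
      have h2 : Real.log 2 ≤ 1 := by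
        have := Real.log_two_lt_d9
        linarith
      have h3 : ((2 * (m + 1) : ℕ) : ℝ) * Real.log 2 ≤ ((2 * (m + 1) : ℕ) : ℝ) * 1 :=
        mul_le_mul_of_nonneg_left h2 (by positivity)
      push_cast at h1 h3
      linarith
    have hks : (k : ℝ) ≤ 3 * s := by
      have : k ≤ 3 * s := by omega
      exact_mod_cast this
    have h5 : (1 / 6 : ℝ) * k * Real.log (Fintype.card ((Finset (Fin m) × Fin s) ⊕ Fin k)) ≤
        (1 / 6 : ℝ) * k * (2 * (m + 1)) := mul_le_mul_of_nonneg_left hlog (by positivity)
    have h6 : (1 / 6 : ℝ) * k * (2 * (m + 1)) ≤ (1 / 6 : ℝ) * (3 * s) * (2 * (m + 1)) := by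
      gcongr
    refine h5.trans (h6.trans (le_of_eq ?_))
    ring

/-- First-Fit uses at most one colour on a graph with clique number `1` (it has no edges). -/
theorem chiFF_le_one {V : Type} [Fintype V] (G : SimpleGraph V) (h : G.cliqueNum = 1) :
    chiFF G ≤ 1 := by
  classical
  have hno : ∀ u v, ¬ G.Adj u v := by
    intro u v huv
    have hc : G.IsClique (({u, v} : Finset V) : Set V) := by
      rw [coe_pair]
      exact SimpleGraph.isClique_pair.mpr fun _ => huv
    have := hc.card_le_cliqueNum
    rw [h, card_pair huv.ne] at this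
    omega
  refine csSup_le' ?_
  rintro t ⟨ρ, c, ⟨-, hc⟩, rfl⟩
  have h1 : ∀ v, c v = 1 := by
    intro v
    have h2 := (hc v).1.1
    have h3 : c v ≤ 1 := (hc v).2 ⟨le_rfl, fun w hw => absurd hw (hno v w)⟩
    omega
  have hsub : univ.image c ⊆ {1} := by
    intro x hx
    obtain ⟨v, -, rfl⟩ := mem_image.mp hx
    rw [h1, mem_singleton]
  exact (card_le_card hsub).trans (by simp)

/-- **First-Fit on chordal graphs.** There is an absolute constant `c > 0` such that for every
`k ≥ 2` there are chordal graphs `G` with `ω(G) = k`, arbitrarily many vertices `n`, and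
`χ_FF(G) ≥ c · ω(G) · log n`.  (For `k = 1` the inequality trivially fails for large `n`.) -/
theorem result :
    (∃ c : ℝ, 0 < c ∧ ∀ k : ℕ, 2 ≤ k → ∀ N : ℕ,
      ∃ (V : Type) (_ : Fintype V) (G : SimpleGraph V),
        Chordal G ∧ G.cliqueNum = k ∧ N ≤ Fintype.card V ∧
          c * G.cliqueNum * Real.log (Fintype.card V) ≤ chiFF G) ∧
    (∀ c : ℝ, 0 < c → ∃ N : ℕ, ∀ (V : Type) (_ : Fintype V) (G : SimpleGraph V),
      G.cliqueNum = 1 → N ≤ Fintype.card V →
        (chiFF G : ℝ) < c * G.cliqueNum * Real.log (Fintype.card V)) := by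
  refine ⟨⟨1 / 6, by norm_num, lower⟩, fun c hc => ?_⟩
  obtain ⟨N, hN⟩ := exists_nat_gt (Real.exp (1 / c))
  refine ⟨N, fun V _ G hG hcard => ?_⟩
  have h1 : (chiFF G : ℝ) ≤ 1 := by exact_mod_cast chiFF_le_one G hG
  have h2 : Real.exp (1 / c) < Fintype.card V :=
    lt_of_lt_of_le hN (by exact_mod_cast hcard)
  have h3 : 1 / c < Real.log (Fintype.card V) := by
    rw [Real.lt_log_iff_exp_lt (lt_trans (Real.exp_pos _) h2)]
    exact h2
  have h4 : 1 < c * Real.log (Fintype.card V) := by
    rw [div_lt_iff₀ hc] at h3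
    linarith
  rw [hG]
  push_cast
  linarith

end Pool.Agent.Results.MP_4aa424_co.FirstFitChordal
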